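import Pool.Agent.H20.RT.Pat

/-! Row C4 of board rt (MP_a315fd_nt). -/

set_option autoImplicit false

namespace Pool.RT

/-- **C4** -/
theorem C4_thm (hSTP : STPStmt) : C4Stmt := by
  intro a b
  have hu : wl 1 0 0 0 1 a (a + 2 + b) 0 0 =
      List.replicate (a + 2 + b) 7 ++ (List.replicate a 6 ++ [5, 1]) := by
    simp [wl]
  unfold Wd
  rw [hu]
  have hrev : (List.replicate (a + 2 + b) 7 ++ (List.replicate a 6 ++ [5, 1])).reverse =
      1 :: 5 :: (List.replicate a 6 ++ List.replicate (a + 2 + b) 7) := by
    simp
  have h := hSTP (List.replicate (a + 2 + b) 7 ++ (List.replicate a 6 ++ [5, 1]))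
    (8 :: 2 :: (List.replicate a 4 ++ (List.replicate b 5 ++ (List.replicate a 4 ++ [3, 9]))))
    0 1 1 (2 * a) b 0 0 1 1
    (by
      intro x hx
      simp only [List.mem_cons, List.mem_append, List.mem_replicate,
        List.mem_nil_iff, or_false] at hx
      omega)
    (by
      intro x hx
      simp only [List.mem_cons, List.mem_append, List.mem_replicate,
        List.mem_nil_iff, or_false] at hx
      omega)
    (by
      rw [hrev]
      simp only [Nat.ofDigits_cons, Nat.ofDigits_append, od_rep, List.length_replicate,
        Nat.ofDigits_nil, pow_R, R_add, R_succ, R_one, show R 2 = 11 by decide]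
      ring)
    (by simp [List.count_cons, List.count_append, List.count_replicate])
    (by simp [List.count_cons, List.count_append, List.count_replicate])
    (by simp [List.count_cons, List.count_append, List.count_replicate])
    (by simp [List.count_cons, List.count_append, List.count_replicate]; try omega)
    (by simp [List.count_cons, List.count_append, List.count_replicate])
    (by simp [List.count_cons, List.count_append, List.count_replicate])
    (by simp [List.count_cons, List.count_append, List.count_replicate])
    (by simp [List.count_cons, List.count_append, List.count_replicate])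
    (by simp [List.count_cons, List.count_append, List.count_replicate])
  exact h

end Pool.RT
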